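import Pool.Agent.V110.ME.Mult

set_option autoImplicit false

/-!
# Exponentiated highest weights extend to multiplicative maps on `1 + A`

`A` is a non-unital commutative complex involutive continuous inverse algebra (cia), `𝔤(A) = 𝔰𝔩₂(ℂ) ⊗ A` is
realised as the Lie algebra of traceless `2 × 2` matrices over `A` (`x ⊗ a` is the matrix
`(x i j • a)`), and `𝔨_A = 𝔰𝔲₂ ⊗ A_ℝ` is the set of `X ∈ 𝔤(A)` with `Xᴴ = -X`.
-/

open NormedSpace Topology Filter Matrix
open scoped InnerProductSpace

namespace Pool.Agent.Results.MP_521103_al.MultiplicativeExtension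

universe u v

/-- The unitization `A₊ = ℂ 1 ⊕ A` carries the product topology. -/
noncomputable instance topU (A : Type u) [TopologicalSpace A] : TopologicalSpace (Unitization ℂ A) :=
  TopologicalSpace.induced Unitization.toProd inferInstance

/-- `A` is a non-unital continuous inverse algebra: a (Hausdorff) locally convex algebra such that the
units of the unitization `A₊` form an open set on which inversion is continuous. -/
structure IsCIA (A : Type u) [NonUnitalCommRing A] [Module ℂ A] [IsScalarTower ℂ A A]
    [SMulCommClass ℂ A A] [TopologicalSpace A] : Prop where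
  top : IsTopologicalRing A
  smul : ContinuousSMul ℂ A
  t2 : T2Space A
  locallyConvex : LocallyConvexSpace ℝ A
  isOpen_units : IsOpen {x : Unitization ℂ A | IsUnit x}
  continuousAt_inv : ∀ x : Unitization ℂ A, IsUnit x → ContinuousAt Ring.inverse x

/-- `𝔤(A) = 𝔰𝔩₂(ℂ) ⊗ A`: the traceless `2 × 2` matrices over `A`. -/
def sl2 (A : Type u) [NonUnitalCommRing A] [Module ℂ A] :
    Submodule ℂ (Matrix (Fin 2) (Fin 2) A) :=
  LinearMap.ker (Matrix.traceLinearMap (Fin 2) ℂ A)

section elements

variable {A : Type u} [NonUnitalCommRing A] [Module ℂ A]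

/-- `a e`, the matrix `(0, a; 0, 0)` -/
def ee : A →ₗ[ℂ] sl2 A where
  toFun a := ⟨!![0, a; 0, 0], by simp [sl2, Matrix.trace_fin_two]⟩
  map_add' a b := by
    apply Subtype.ext
    ext i j
    fin_cases i <;> fin_cases j <;> simp
  map_smul' c a := by
    apply Subtype.ext
    ext i j
    fin_cases i <;> fin_cases j <;> simp

/-- `a f`, the matrix `(0, 0; a, 0)` -/
def ff : A →ₗ[ℂ] sl2 A where
  toFun a := ⟨!![0, 0; a, 0], by simp [sl2, Matrix.trace_fin_two]⟩
  map_add' a b := by
    apply Subtype.ext
    ext i j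
    fin_cases i <;> fin_cases j <;> simp
  map_smul' c a := by
    apply Subtype.ext
    ext i j
    fin_cases i <;> fin_cases j <;> simp

/-- `a h`, the matrix `(a, 0; 0, -a)` -/
def hh : A →ₗ[ℂ] sl2 A where
  toFun a := ⟨!![a, 0; 0, -a], by simp [sl2, Matrix.trace_fin_two]⟩
  map_add' a b := by
    apply Subtype.ext
    ext i j
    fin_cases i <;> fin_cases j <;> simp; abel
  map_smul' c a := by
    apply Subtype.ext
    ext i j
    fin_cases i <;> fin_cases j <;> simp

end elements

/-- A bounded unitary representation of `𝔨_A` on the Hilbert space `H`, extended complex-linearly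
to `𝔤(A)`: a continuous (for the operator norm) complex-linear map `π` from `𝔤(A)` to the bounded
operators with `π [X, Y] = [π X, π Y]` and such that `π X` is skew-adjoint for `X ∈ 𝔨_A`. -/
structure UnitaryRep (A : Type u) [NonUnitalCommRing A] [Module ℂ A] [StarRing A]
    [TopologicalSpace A] (H : Type v) [NormedAddCommGroup H] [InnerProductSpace ℂ H]
    [CompleteSpace H] where
  π : sl2 A →ₗ[ℂ] (H →L[ℂ] H)
  continuous : Continuous π
  lie : ∀ X Y Z : sl2 A, (Z : Matrix (Fin 2) (Fin 2) A) = X * Y - Y * X →
    π Z = π X * π Y - π Y * π X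
  skew : ∀ X : sl2 A, (X : Matrix (Fin 2) (Fin 2) A)ᴴ = -X → star (π X) = -π X

section proofs

variable {A : Type u} [NonUnitalCommRing A] [Module ℂ A] [IsScalarTower ℂ A A]
  [SMulCommClass ℂ A A] [StarRing A] [StarModule ℂ A] [TopologicalSpace A]
  {H : Type v} [NormedAddCommGroup H] [InnerProductSpace ℂ H] [CompleteSpace H]

omit [IsScalarTower ℂ A A] [SMulCommClass ℂ A A] in
theorem adj (ρ : UnitaryRep A H) (X Z : sl2 A)
    (h : (Z : Matrix (Fin 2) (Fin 2) A) = (X : Matrix (Fin 2) (Fin 2) A)ᴴ) :
    star (ρ.π X) = ρ.π Z := by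
  have h' : (X : Matrix (Fin 2) (Fin 2) A) = (Z : Matrix (Fin 2) (Fin 2) A)ᴴ := by
    rw [h, conjTranspose_conjTranspose]
  have h1 := ρ.skew (X - Z) (by
    rw [Submodule.coe_sub, conjTranspose_sub, ← h, ← h']
    abel)
  have h2 := ρ.skew (Complex.I • (X + Z)) (by
    rw [Submodule.coe_smul, Submodule.coe_add, conjTranspose_smul, conjTranspose_add, ← h, ← h',
      ← neg_smul]
    congr 1
    · simp
    · abel)
  rw [map_sub, star_sub] at h1
  rw [map_smul, map_add, star_smul, star_add, ← smul_neg] at h2
  have hI : star Complex.I = -Complex.I := by simp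
  rw [hI, neg_smul, smul_neg, neg_inj] at h2
  have h3 := smul_right_injective (H →L[ℂ] H) Complex.I_ne_zero h2
  have h4 : (2 : ℂ) • star (ρ.π X) = (2 : ℂ) • ρ.π Z := by
    have : (2 : ℂ) • star (ρ.π X) = (star (ρ.π X) - star (ρ.π Z)) +
      (star (ρ.π X) + star (ρ.π Z)) := by module
    rw [this, h1, h3]
    module
  exact smul_right_injective (H →L[ℂ] H) (two_ne_zero) h4

/-- the data of the abstract part -/
noncomputable def data (ρ : UnitaryRep A H) (lam : A → ℂ) (v : H) (hv : v ≠ 0)
    (hE : ∀ a, ρ.π (ee a) v = 0) (hl : ∀ a, ρ.π (hh a) v = lam a • v) :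
    Pool.Agent.V110.ME.Data A H where
  E := ρ.π ∘ₗ ee
  F := ρ.π ∘ₗ ff
  D := ρ.π ∘ₗ hh
  DE a b := by
    have h := ρ.lie (hh a) (ee b) ((2 : ℂ) • ee (a * b)) (by
      ext i j
      fin_cases i <;> fin_cases j <;> simp [ee, hh, two_smul, mul_comm])
    simp only [LinearMap.comp_apply]
    rw [← h, map_smul]
  DF a b := by
    have h := ρ.lie (hh a) (ff b) ((-2 : ℂ) • ff (a * b)) (by
      ext i j
      fin_cases i <;> fin_cases j <;> simp [ff, hh, two_smul, mul_comm, sub_eq_add_neg])
    simp only [LinearMap.comp_apply]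
    rw [← h, map_smul]
  EF a b := by
    have h := ρ.lie (ee a) (ff b) (hh (a * b)) (by
      ext i j
      fin_cases i <;> fin_cases j <;> simp [ee, ff, hh, mul_comm])
    simp only [LinearMap.comp_apply]
    rw [← h]
  EE a b := by
    have h := ρ.lie (ee a) (ee b) 0 (by
      ext i j
      fin_cases i <;> fin_cases j <;> simp [ee])
    rw [map_zero] at h
    exact (sub_eq_zero.1 h.symm)
  FF a b := by
    have h := ρ.lie (ff a) (ff b) 0 (by
      ext i j
      fin_cases i <;> fin_cases j <;> simp [ff])
    rw [map_zero] at h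
    exact (sub_eq_zero.1 h.symm)
  DD a b := by
    have h := ρ.lie (hh a) (hh b) 0 (by
      ext i j
      fin_cases i <;> fin_cases j <;> simp [hh, mul_comm])
    rw [map_zero] at h
    exact (sub_eq_zero.1 h.symm)
  v := v
  hv := hv
  lam := lam
  Ev := hE
  Dv := hl
  Fi a x := by
    have h := adj ρ (ff a) (ee (star a)) (by
      ext i j
      fin_cases i <;> fin_cases j <;> simp [ee, ff])
    rw [ContinuousLinearMap.star_eq_adjoint] at h
    have h2 := ContinuousLinearMap.adjoint_inner_left (ρ.π (ff a)) x v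
    rw [h, hE, inner_zero_left] at h2
    exact h2.symm
  Di a x := by
    have h := adj ρ (hh a) (hh (star a)) (by
      ext i j
      fin_cases i <;> fin_cases j <;> simp [hh])
    rw [ContinuousLinearMap.star_eq_adjoint] at h
    have h2 := fun x => ContinuousLinearMap.adjoint_inner_left (ρ.π (hh a)) x v
    rw [h, hl] at h2
    simp only [inner_smul_left] at h2
    have h3 := h2 v
    rw [hl, inner_smul_right] at h3
    have h4 := mul_right_cancel₀ (inner_self_ne_zero.2 hv) h3
    have h5 := h2 x
    rw [h4] at h5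
    exact h5.symm

omit [StarRing A] [StarModule ℂ A] in
theorem continuous_el (hA : IsCIA A) :
    Continuous (fun a : A => (hh a + ee a - ff a : sl2 A)) := by
  have := hA.top
  have := hA.smul
  refine Continuous.subtype_mk (p := fun M => M ∈ sl2 A)
    (f := fun a : A => ((hh a + ee a - ff a : sl2 A) : Matrix (Fin 2) (Fin 2) A)) ?_
    (fun a => (hh a + ee a - ff a : sl2 A).2)
  refine continuous_matrix fun i j => ?_
  fin_cases i <;> fin_cases j <;> simp [hh, ee, ff] <;> fun_prop

omit [StarRing A] [StarModule ℂ A] in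
theorem exists_w (hA : IsCIA A) (y : A) : ∀ᶠ t : ℂ in 𝓝 0, ∃ w : A, w + (t • y) * w = y := by
  have := hA.top
  have := hA.smul
  have hc : Continuous (fun t : ℂ => ((1 : ℂ), t • y)) := by fun_prop
  have hc' : Continuous (fun t : ℂ => (1 + ((t • y : A) : Unitization ℂ A))) := by
    refine continuous_induced_rng.2 ?_
    have e : (Unitization.toProd ∘ fun t : ℂ => (1 + ((t • y : A) : Unitization ℂ A))) =
        fun t : ℂ => ((1 : ℂ), t • y) := by
      funext t
      apply Prod.ext
      · simp
      · simp
    rw [e]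
    exact hc
  have h1 : (fun t : ℂ => (1 + ((t • y : A) : Unitization ℂ A))) 0 ∈
      {x : Unitization ℂ A | IsUnit x} := by
    simp
  have h2 := hc'.continuousAt.preimage_mem_nhds (hA.isOpen_units.mem_nhds h1)
  filter_upwards [h2] with t ht
  obtain ⟨q, hq⟩ := (show IsUnit (1 + ((t • y : A) : Unitization ℂ A)) from ht).exists_right_inv
  have hf := congrArg (fun x : Unitization ℂ A => x.fst) hq
  have hs := congrArg (fun x : Unitization ℂ A => x.snd) hq
  simp only [Unitization.fst_mul, Unitization.fst_add, Unitization.fst_one, Unitization.fst_inr,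
    add_zero, one_mul] at hf
  simp only [Unitization.snd_mul, Unitization.snd_add, Unitization.snd_one, Unitization.snd_inr,
    Unitization.fst_add, Unitization.fst_one, Unitization.fst_inr, add_zero, zero_add, one_smul,
    hf] at hs
  refine ⟨y + q.snd * y, ?_⟩
  have e : y + q.snd * y + (t • y) * (y + q.snd * y) =
      y + (q.snd + t • y + (t • y) * q.snd) * y := by
    rw [mul_add, add_mul, add_mul, mul_assoc]
    abel
  rw [e, hs, zero_mul, add_zero]

end proofs

/-- **Main theorem.** Let `A` be a non-unital involutive cia, `ρ` a bounded unitary representation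
of `𝔨_A` (irreducible or not), and `v ≠ 0` a vector of `ℰ` (`π(a e) v = 0` for all `a`) with
`π(a h) v = lam a • v` for all `a`. Then there is a multiplicative map `F` on `1 + A`, continuous
and complex differentiable along every complex line, with `F(e^a) = e^(lam a)`. -/
theorem result (A : Type u) [NonUnitalCommRing A] [Module ℂ A] [IsScalarTower ℂ A A]
    [SMulCommClass ℂ A A] [StarRing A] [StarModule ℂ A] [TopologicalSpace A] [ContinuousStar A]
    (hA : IsCIA A)
    (H : Type v) [NormedAddCommGroup H] [InnerProductSpace ℂ H] [CompleteSpace H]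
    (ρ : UnitaryRep A H) (lam : A → ℂ) (v : H) (hv : v ≠ 0) (hE : ∀ a, ρ.π (ee a) v = 0)
    (hl : ∀ a, ρ.π (hh a) v = lam a • v) :
    ∃ F : Unitization ℂ A → ℂ,
      Continuous (fun a : A => F (1 + (a : Unitization ℂ A))) ∧
      (∀ a b : A, Differentiable ℂ fun t : ℂ => F (1 + ((a + t • b : A) : Unitization ℂ A))) ∧
      (∀ a b : A, F ((1 + (a : Unitization ℂ A)) * (1 + (b : Unitization ℂ A))) =
        F (1 + (a : Unitization ℂ A)) * F (1 + (b : Unitization ℂ A))) ∧
      ∀ a : A, (∀ t : ℂ, Summable fun n : ℕ =>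
          (n.factorial : ℂ)⁻¹ • (((t • a : A) : Unitization ℂ A)) ^ n) →
        F (∑' n : ℕ, (n.factorial : ℂ)⁻¹ • (a : Unitization ℂ A) ^ n) = Complex.exp (lam a) := by
  have := hA.top
  have := hA.smul
  set S := data ρ lam v hv hE hl with hS
  have hN : Continuous S.N := by
    have e : (⇑S.N) = fun a => ρ.π (hh a + ee a - ff a) := by
      funext a
      rw [map_sub, map_add]
      rfl
    rw [e]
    exact ρ.continuous.comp (continuous_el hA)
  have hΦ : Continuous S.Φ := by
    have : NormedAlgebra ℚ (H →L[ℂ] H) := NormedAlgebra.restrictScalars ℚ ℂ _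
    exact S.L.continuous.comp (exp_continuous.comp hN)
  have h0 := S.Φ_zero_ne
  refine ⟨fun x => S.Φ x.snd / S.Φ 0, ?_, ?_, ?_, ?_⟩
  · simp only [Unitization.snd_add, Unitization.snd_one, Unitization.snd_inr, zero_add]
    exact hΦ.div_const _
  · intro a b
    simp only [Unitization.snd_add, Unitization.snd_one, Unitization.snd_inr, zero_add]
    exact (S.differentiable_line a b).div_const _
  · intro a b
    have h := S.mult a b (exists_w hA b)
    have e : ((1 + (a : Unitization ℂ A)) * (1 + (b : Unitization ℂ A))).snd = a + b + a * b := by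
      simp [Unitization.snd_mul]
      abel
    simp only [e, Unitization.snd_add, Unitization.snd_one, Unitization.snd_inr, zero_add]
    field_simp
    linear_combination h
  · intro a ha
    set z : ℂ → A := fun t => (∑' n : ℕ, (n.factorial : ℂ)⁻¹ •
      (((t • a : A) : Unitization ℂ A)) ^ n).snd with hz
    have hpow : ∀ (t : ℂ) (n : ℕ), (((t • a : A) : Unitization ℂ A)) ^ (n + 1) =
        ((t ^ (n + 1) • Pool.Agent.V110.ME.Data.pw a n : A) : Unitization ℂ A) := by
      intro t n
      induction n with
      | zero => simp [Pool.Agent.V110.ME.Data.pw]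
      | succ n ih =>
        rw [pow_succ, ih, ← Unitization.inr_mul]
        congr 1
        rw [Pool.Agent.V110.ME.Data.pw, smul_mul_smul_comm, pow_succ t (n + 1)]
    have hsum : ∀ t : ℂ, HasSum (fun n : ℕ => (t ^ (n + 1) * ((n + 1).factorial : ℂ)⁻¹) •
        Pool.Agent.V110.ME.Data.pw a n) (z t) := by
      intro t
      have h1 := (ha t).hasSum
      have hsnd : Continuous (Unitization.sndHom ℂ ℂ A) :=
        (continuous_snd.comp continuous_induced_dom :
          Continuous fun x : Unitization ℂ A => x.toProd.2)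
      have h2 := h1.map (Unitization.sndHom ℂ ℂ A) hsnd
      have h3 := (hasSum_nat_add_iff' 1).2 h2
      have e1 : (Unitization.sndHom ℂ ℂ A) (∑' n : ℕ, (n.factorial : ℂ)⁻¹ •
          (((t • a : A) : Unitization ℂ A)) ^ n) - ∑ i ∈ Finset.range 1,
          ((Unitization.sndHom ℂ ℂ A) ∘ fun n : ℕ => (n.factorial : ℂ)⁻¹ •
          (((t • a : A) : Unitization ℂ A)) ^ n) i = z t := by
        simp [hz]
      rw [e1] at h3
      refine h3.congr_fun ?_
      intro n
      simp only [Function.comp_apply, hpow, map_smul]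
      simp only [Unitization.sndHom_apply, Unitization.snd_inr, smul_smul]
      rw [mul_comm]
    have h4 := S.expo hN a z hsum
    have e2 : z 1 = (∑' n : ℕ, (n.factorial : ℂ)⁻¹ • (a : Unitization ℂ A) ^ n).snd := by
      simp only [hz, one_smul]
    rw [e2] at h4
    simp only [h4]
    rw [mul_div_cancel_left₀ _ h0]
    rfl

end Pool.Agent.Results.MP_521103_al.MultiplicativeExtension
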